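import Pool.Agent.H17.RX.Stm

/-!
# Project RX, part NR: the ultrapower
-/

set_option autoImplicit false
open Filter Topology MeasureTheory
open scoped ComplexConjugate ENNReal

namespace Pool.Agent.H80.RX

open Pool.Agent.H17.RX

lemma ulim_exists (U : Ultrafilter ℕ) (f : ℕ → ℝ) (C : ℝ) (hf : ∀ i, |f i| ≤ C) :
    ∃ L : ℝ, |L| ≤ C ∧ Tendsto f (U : Filter ℕ) (𝓝 L) := by
  have h1 : ((U.map f : Ultrafilter ℝ) : Filter ℝ) ≤ 𝓟 (Set.Icc (-C) C) := by
    rw [le_principal_iff]
    have h2 : f ⁻¹' Set.Icc (-C) C ∈ (U : Filter ℕ) :=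
      Filter.univ_mem' fun i => abs_le.1 (hf i)
    exact h2
  obtain ⟨L, hL, h2⟩ := isCompact_Icc.ultrafilter_le_nhds (U.map f) h1
  exact ⟨L, abs_le.2 hL, h2⟩

variable {X : Type} [NormedAddCommGroup X] [NormedSpace ℝ X]

lemma fun_bound (P : X →L[ℝ] L2) (w : ℕ → L2) (hw : ∀ i, ‖w i‖ ≤ 1)
    (x : BoundedContinuousFunction ℕ X) (i : ℕ) :
    |(inner ℝ (w i) (P (x i)) : ℝ)| ≤ ‖P‖ * ‖x‖ := by
  calc |(inner ℝ (w i) (P (x i)) : ℝ)| ≤ ‖w i‖ * ‖P (x i)‖ := abs_real_inner_le_norm _ _
    _ ≤ 1 * (‖P‖ * ‖x‖) := by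
        apply mul_le_mul (hw i) _ (norm_nonneg _) (by norm_num)
        exact (P.le_opNorm _).trans (mul_le_mul_of_nonneg_left (x.norm_coe_le_norm i)
          (norm_nonneg _))
    _ = _ := one_mul _

lemma exists_functional (U : Ultrafilter ℕ) (P : X →L[ℝ] L2) (w : ℕ → L2)
    (hw : ∀ i, ‖w i‖ ≤ 1) : ∃ a : UPow X U →L[ℝ] ℝ, ∀ x : BoundedContinuousFunction ℕ X,
      Tendsto (fun i => (inner ℝ (w i) (P (x i)) : ℝ)) (U : Filter ℕ)
        (𝓝 (a (Submodule.Quotient.mk x))) := by
  have hex : ∀ x : BoundedContinuousFunction ℕ X, ∃ L : ℝ, |L| ≤ ‖P‖ * ‖x‖ ∧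
      Tendsto (fun i => (inner ℝ (w i) (P (x i)) : ℝ)) (U : Filter ℕ) (𝓝 L) := fun x =>
    ulim_exists U _ _ (fun_bound P w hw x)
  choose L hL1 hL2 using hex
  let Lf : BoundedContinuousFunction ℕ X →ₗ[ℝ] ℝ :=
    { toFun := L
      map_add' := fun x y => by
        refine tendsto_nhds_unique (hL2 (x + y)) ?_
        have h1 := (hL2 x).add (hL2 y)
        refine h1.congr fun i => ?_
        rw [BoundedContinuousFunction.add_apply, map_add, inner_add_right]
      map_smul' := fun c x => by
        refine tendsto_nhds_unique (hL2 (c • x)) ?_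
        have h1 := (hL2 x).const_mul c
        refine h1.congr fun i => ?_
        rw [BoundedContinuousFunction.smul_apply, map_smul, inner_smul_right] }
  have h0 : nullSub X U ≤ LinearMap.ker Lf := by
    intro x hx
    rw [LinearMap.mem_ker]
    have hx' : Tendsto (fun n => x n) (U : Filter ℕ) (𝓝 0) := hx
    refine tendsto_nhds_unique (hL2 x) ?_
    have h1 : Tendsto (fun n => ‖P‖ * ‖x n‖) (U : Filter ℕ) (𝓝 0) := by
      have := hx'.norm.const_mul ‖P‖
      simpa using this
    refine squeeze_zero_norm (fun i => ?_) h1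
    rw [Real.norm_eq_abs]
    calc |(inner ℝ (w i) (P (x i)) : ℝ)| ≤ ‖w i‖ * ‖P (x i)‖ := abs_real_inner_le_norm _ _
      _ ≤ 1 * (‖P‖ * ‖x i‖) :=
          mul_le_mul (hw i) (P.le_opNorm _) (norm_nonneg _) (by norm_num)
      _ = _ := one_mul _
  refine ⟨LinearMap.mkContinuous ((nullSub X U).liftQ Lf h0) ‖P‖ ?_, fun x => ?_⟩
  · intro x
    apply le_of_forall_pos_le_add
    intro ε hε
    obtain ⟨y, rfl, hy⟩ := Submodule.Quotient.norm_mk_lt x (show 0 < ε / (‖P‖ + 1) by positivity)
    have h1 : ‖(nullSub X U).liftQ Lf h0 (Submodule.Quotient.mk y)‖ ≤ ‖P‖ * ‖y‖ := by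
      rw [Submodule.liftQ_apply, Real.norm_eq_abs]
      exact hL1 y
    have h4 : ‖P‖ * ‖y‖ ≤ ‖P‖ * (‖(Submodule.Quotient.mk y : UPow X U)‖ + ε / (‖P‖ + 1)) :=
      mul_le_mul_of_nonneg_left hy.le (norm_nonneg _)
    have h5 : ‖P‖ * (ε / (‖P‖ + 1)) ≤ ε := by
      rw [mul_div_assoc', div_le_iff₀ (by positivity)]
      nlinarith [norm_nonneg P]
    rw [mul_add] at h4
    exact h1.trans (h4.trans (by linarith))
  · exact hL2 x

lemma norm_mk_le_of_eventually (U : Ultrafilter ℕ) (f : BoundedContinuousFunction ℕ X) (C : ℝ)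
    (hC : 0 ≤ C) (hf : ∀ᶠ i in (U : Filter ℕ), ‖f i‖ ≤ C) :
    ‖(Submodule.Quotient.mk f : UPow X U)‖ ≤ C := by
  classical
  let g : BoundedContinuousFunction ℕ X := BoundedContinuousFunction.ofNormedAddCommGroup
    (fun i => if ‖f i‖ ≤ C then f i else 0) continuous_of_discreteTopology C (fun i => by
      split_ifs with h
      · exact h
      · rw [norm_zero]; exact hC)
  have h1 : (Submodule.Quotient.mk f : UPow X U) = Submodule.Quotient.mk g := by
    rw [Submodule.Quotient.eq]
    change Tendsto (fun n => (f - g) n) (U : Filter ℕ) (𝓝 0)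
    apply tendsto_const_nhds.congr'
    filter_upwards [hf] with i hi
    change (0 : X) = f i - (if ‖f i‖ ≤ C then f i else 0)
    rw [if_pos hi, sub_self]
  rw [h1]
  refine (Submodule.Quotient.norm_mk_le _ _).trans ?_
  rw [BoundedContinuousFunction.norm_le hC]
  intro i
  change ‖(if ‖f i‖ ≤ C then f i else 0)‖ ≤ C
  split_ifs with h
  · exact h
  · rw [norm_zero]; exact hC

lemma up_mem (U : Ultrafilter ℕ) (T : X →L[ℝ] X) : upMap U T ∈ algU X U := by
  intro n y φ ε hε
  refine ⟨upMap U T, ⟨T, rfl⟩, fun i => ?_⟩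
  simpa using hε

lemma up_apply (U : Ultrafilter ℕ) (T : X →L[ℝ] X) (x : BoundedContinuousFunction ℕ X) :
    upMap U T (Submodule.Quotient.mk x) =
      Submodule.Quotient.mk (T.compLeftContinuousBounded ℕ x) := rfl

theorem t_NR : S_NR := by
  intro X _ _ R P hPR U z y J hD hrefl
  have hz1 : ∀ i, ‖z i‖ ≤ 1 := fun i => (hD.nz i).le
  have hy1 : ∀ i, ‖y i‖ ≤ 1 := fun i => (hD.ny i).le
  obtain ⟨a, ha⟩ := exists_functional U P z hz1
  obtain ⟨b, hb⟩ := exists_functional U P y hy1
  let zB : BoundedContinuousFunction ℕ X := BoundedContinuousFunction.ofNormedAddCommGroup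
    (fun i => R (z i)) continuous_of_discreteTopology ‖R‖ (fun i =>
      (R.le_opNorm _).trans (by rw [hD.nz i, mul_one]))
  let yB : BoundedContinuousFunction ℕ X := BoundedContinuousFunction.ofNormedAddCommGroup
    (fun i => R (y i)) continuous_of_discreteTopology ‖R‖ (fun i =>
      (R.le_opNorm _).trans (by rw [hD.ny i, mul_one]))
  have ezB : ∀ i, zB i = R (z i) := fun i => rfl
  have eyB : ∀ i, yB i = R (y i) := fun i => rfl
  obtain ⟨ζ, hζ⟩ : ∃ ζ : UPow X U, ζ = Submodule.Quotient.mk zB := ⟨_, rfl⟩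
  obtain ⟨η, hη⟩ : ∃ η : UPow X U, η = Submodule.Quotient.mk yB := ⟨_, rfl⟩
  have haζ : a ζ = 1 := by
    rw [hζ]
    refine tendsto_nhds_unique (ha zB) ?_
    refine tendsto_const_nhds.congr fun i => ?_
    rw [ezB, hPR, real_inner_self_eq_norm_sq, hD.nz i]
    norm_num
  have haη : a η = 0 := by
    rw [hη]
    refine tendsto_nhds_unique (ha yB) ?_
    refine tendsto_const_nhds.congr fun i => ?_
    rw [eyB, hPR, hD.zy i]
  -- the operator
  let S : UPow X U →L[ℝ] UPow X U := a.smulRight ζ
  have hS : ∀ x, S x = a x • ζ := fun x => rfl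
  have hmem : S ∈ algU X U := by
    apply hrefl S
    intro N hN hinv x hx
    rw [hS]
    by_cases hax : a x = 0
    · rw [hax, zero_smul]
      exact N.zero_mem
    · suffices hζN : ζ ∈ N from N.smul_mem _ hζN
      obtain ⟨x0, rfl⟩ := Submodule.Quotient.mk_surjective _ x
      set α := a (Submodule.Quotient.mk x0) with hα
      set β := b (Submodule.Quotient.mk x0) with hβ
      have hw : α • ζ + β • η ∈ N := by
        have hcl : α • ζ + β • η ∈ closure (N : Set (UPow X U)) := by
          rw [Metric.mem_closure_iff]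
          intro ε hε
          obtain ⟨M, hM⟩ : ∃ M, M = ‖P‖ * ‖x0‖ + 1 := ⟨_, rfl⟩
          have hM0 : 0 < M := by rw [hM]; positivity
          obtain ⟨κ, hκ⟩ : ∃ κ, κ = ε / (2 * (‖R‖ + 1) * (M + 2)) := ⟨_, rfl⟩
          have hκ0 : 0 < κ := by rw [hκ]; positivity
          obtain ⟨T, hT⟩ := hD.B (fun i => (1 / M) • P (x0 i)) (fun i => by
            rw [norm_smul, Real.norm_of_nonneg (by positivity), one_div, inv_mul_le_iff₀ hM0,
              mul_one]
            calc ‖P (x0 i)‖ ≤ ‖P‖ * ‖x0‖ := (P.le_opNorm _).trans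
                  (mul_le_mul_of_nonneg_left (x0.norm_coe_le_norm i) (norm_nonneg _))
              _ ≤ M := by rw [hM]; linarith) κ hκ0
          refine ⟨upMap U (R.comp (T.comp P)) (Submodule.Quotient.mk x0),
            hinv _ (up_mem U _) _ hx, ?_⟩
          rw [dist_comm, dist_eq_norm, up_apply, hζ, hη]
          have e1 : (Submodule.Quotient.mk ((R.comp (T.comp P)).compLeftContinuousBounded ℕ x0) -
              (α • (Submodule.Quotient.mk zB : UPow X U) + β • Submodule.Quotient.mk yB)) =
              (Submodule.Quotient.mk ((R.comp (T.comp P)).compLeftContinuousBounded ℕ x0 -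
                (α • zB + β • yB)) : UPow X U) := by
            rw [Submodule.Quotient.mk_sub, Submodule.Quotient.mk_add, Submodule.Quotient.mk_smul,
              Submodule.Quotient.mk_smul]
          rw [e1]
          have hev1 := (Metric.tendsto_nhds.1 (ha x0)) κ hκ0
          have hev2 := (Metric.tendsto_nhds.1 (hb x0)) κ hκ0
          have hle : ‖(Submodule.Quotient.mk
              ((R.comp (T.comp P)).compLeftContinuousBounded ℕ x0 - (α • zB + β • yB)) :
                UPow X U)‖ ≤ ‖R‖ * ((M + 2) * κ) := by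
            apply norm_mk_le_of_eventually U _ _ (by positivity)
            filter_upwards [hT, hev1, hev2] with i h1 h2 h3
            rw [dist_eq_norm, Real.norm_eq_abs, ← hα] at h2
            rw [dist_eq_norm, Real.norm_eq_abs, ← hβ] at h3
            have e2 : ((R.comp (T.comp P)).compLeftContinuousBounded ℕ x0 -
                (α • zB + β • yB)) i = R (M • (T ((1 / M) • P (x0 i)) -
                  ((inner ℝ (z i) ((1 / M) • P (x0 i)) : ℝ) • z i +
                    (inner ℝ (y i) ((1 / M) • P (x0 i)) : ℝ) • y i)) +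
                  (((inner ℝ (z i) (P (x0 i)) : ℝ) - α) • z i +
                    ((inner ℝ (y i) (P (x0 i)) : ℝ) - β) • y i)) := by
              have e3 : ((R.comp (T.comp P)).compLeftContinuousBounded ℕ x0 -
                (α • zB + β • yB)) i = R (T (P (x0 i))) - (α • R (z i) + β • R (y i)) := rfl
              rw [e3, ← map_smul R, ← map_smul R, ← map_add R, ← map_sub R]
              congr 1
              rw [map_smul, inner_smul_right, inner_smul_right]
              have hMM : M * (1 / M) = 1 := by field_simp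
              rw [smul_sub, smul_add, smul_smul, smul_smul, smul_smul, hMM, one_smul]
              rw [← mul_assoc, ← mul_assoc, hMM, one_mul, one_mul, sub_smul, sub_smul]
              abel
            rw [e2]
            refine (R.le_opNorm _).trans (mul_le_mul_of_nonneg_left ?_ (norm_nonneg _))
            refine (norm_add_le _ _).trans ?_
            have h4 : ‖M • (T ((1 / M) • P (x0 i)) -
                  ((inner ℝ (z i) ((1 / M) • P (x0 i)) : ℝ) • z i +
                    (inner ℝ (y i) ((1 / M) • P (x0 i)) : ℝ) • y i))‖ ≤ M * κ := by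
              rw [norm_smul, Real.norm_of_nonneg hM0.le]
              exact mul_le_mul_of_nonneg_left h1 hM0.le
            have h5 : ‖((inner ℝ (z i) (P (x0 i)) : ℝ) - α) • z i +
                    ((inner ℝ (y i) (P (x0 i)) : ℝ) - β) • y i‖ ≤ κ + κ := by
              refine (norm_add_le _ _).trans (add_le_add ?_ ?_)
              · rw [norm_smul, hD.nz i, mul_one, Real.norm_eq_abs]
                exact h2.le
              · rw [norm_smul, hD.ny i, mul_one, Real.norm_eq_abs]
                exact h3.le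
            linarith
          refine lt_of_le_of_lt hle ?_
          have h6 : (‖R‖ + 1) * ((M + 2) * κ) = ε / 2 := by
            rw [hκ]
            field_simp
          have h7 : ‖R‖ * ((M + 2) * κ) ≤ (‖R‖ + 1) * ((M + 2) * κ) :=
            mul_le_mul_of_nonneg_right (by linarith) (by positivity)
          linarith
        rwa [hN.closure_eq] at hcl
      -- second operator
      have h2 := hinv _ (up_mem U (R.comp ((α • ContinuousLinearMap.id ℝ L2 - β • J).comp P))) _ hw
      have e4 : upMap U (R.comp ((α • ContinuousLinearMap.id ℝ L2 - β • J).comp P))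
          (α • ζ + β • η) = (α ^ 2 + β ^ 2) • ζ := by
        have e5 : α • ζ + β • η = (Submodule.Quotient.mk (α • zB + β • yB) : UPow X U) := by
          rw [hζ, hη, Submodule.Quotient.mk_add, Submodule.Quotient.mk_smul,
            Submodule.Quotient.mk_smul]
        rw [e5, up_apply, hζ]
        have e6 : (R.comp ((α • ContinuousLinearMap.id ℝ L2 - β • J).comp P)).compLeftContinuousBounded
            ℕ (α • zB + β • yB) = (α ^ 2 + β ^ 2) • zB := by
          ext i
          change R (α • P (α • R (z i) + β • R (y i)) - β • J (P (α • R (z i) + β • R (y i)))) =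
            (α ^ 2 + β ^ 2) • R (z i)
          rw [← map_smul R (α ^ 2 + β ^ 2)]
          congr 1
          rw [map_add, map_smul, map_smul, hPR, hPR, map_add, map_smul, map_smul, hD.Jz, hD.Jy]
          module
        rw [e6, Submodule.Quotient.mk_smul]
      rw [e4] at h2
      have hpos : α ^ 2 + β ^ 2 ≠ 0 := by
        have : 0 < α ^ 2 := by positivity
        nlinarith [sq_nonneg β]
      have h3 := N.smul_mem (α ^ 2 + β ^ 2)⁻¹ h2
      rwa [smul_smul, inv_mul_cancel₀ hpos, one_smul] at h3
  -- `S` is not in the closure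
  obtain ⟨T', ⟨T, rfl⟩, hT⟩ := hmem 2 ![ζ, η] ![a, b] (1 / 4) (by norm_num)
  have h0 := hT 0
  have h1 := hT 1
  simp only [Matrix.cons_val_zero, Matrix.cons_val_one] at h0 h1
  have hA := hD.A (P.comp (T.comp R))
  have hlim : a (upMap U T ζ) - b (upMap U T η) = 0 := by
    refine tendsto_nhds_unique ?_ hA
    rw [hζ, hη, up_apply, up_apply]
    exact (ha _).sub (hb _)
  rw [map_sub, hS, map_smul, haζ] at h0
  rw [map_sub, hS, map_smul, haη] at h1
  simp only [smul_eq_mul, zero_mul, mul_one] at h0 h1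
  rw [abs_lt] at h0 h1
  linarith [h0.1, h0.2, h1.1, h1.2]

end Pool.Agent.H80.RX
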